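import Mathlib
import Pool.Agent.helper42.Semi8

/-!
# A numerical semigroup ring that fails (ldep)

Over every field of characteristic zero, the numerical semigroup ring of
`⟨8, 9, 10, 11, 13⟩` fails (ldep).
-/

set_option autoImplicit false

open CategoryTheory Limits TensorProduct Pool.Agent.helper42 Pool.Agent.helper42.SemigroupRing

namespace Pool.Agent.Results.MP_5bb2cc_al.FailsLdep

universe u

/-- The depth of a module over a local ring: the least `i` such that `Ext^i` from the residue
field to the module is not zero (and `⊤` if there is none). -/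
noncomputable def depth (R : Type u) [CommRing R] [IsLocalRing R] (M : ModuleCat.{u} R) : ℕ∞ :=
  ⨅ i : {i : ℕ // Nontrivial
    (Abelian.Ext.{u} (ModuleCat.of R (IsLocalRing.ResidueField R)) M i)}, (i.1 : ℕ∞)

/-- Two modules are Tor-independent when all their `Tor` modules in positive degrees vanish. -/
def TorIndependent {R : Type u} [CommRing R] (M N : ModuleCat.{u} R) : Prop :=
  ∀ i : ℕ, 0 < i → IsZero (((Tor (ModuleCat.{u} R) i).obj M).obj N)

/-- The property (ldep) of a local ring. -/
def LDep (R : Type u) [CommRing R] [IsLocalRing R] : Prop :=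
  ∀ M N : ModuleCat.{u} R, Module.Finite R M → Module.Finite R N → TorIndependent M N →
    depth R M + depth R N ≤ depth R (ModuleCat.of R (M ⊗[R] N)) + depth R (ModuleCat.of R R)

section Depth

variable {R : Type u} [CommRing R] [IsLocalRing R]

lemma one_le_depth {M : ModuleCat.{u} R} (x : R) (hx : x ∈ IsLocalRing.maximalIdeal R)
    (h : ∀ z : M, x • z = 0 → z = 0) : 1 ≤ depth R M := by
  rw [depth]
  refine le_iInf fun i => ?_
  obtain ⟨i, hi⟩ := i
  rcases i with _ | i
  · exfalso
    have h1 : Subsingleton (ModuleCat.of R (IsLocalRing.ResidueField R) ⟶ M) := by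
      refine ⟨fun f g => ?_⟩
      have h2 : ∀ f : ModuleCat.of R (IsLocalRing.ResidueField R) ⟶ M, f = 0 := by
        intro f
        ext y
        apply h
        rw [← map_smul]
        have h3 : x • y = 0 := by
          obtain ⟨r, rfl⟩ := Ideal.Quotient.mk_surjective y
          rw [Algebra.smul_def]
          have h4 : algebraMap R (IsLocalRing.ResidueField R) x = 0 :=
            Ideal.Quotient.eq_zero_iff_mem.2 hx
          rw [h4, zero_mul]
        rw [h3, map_zero]
      rw [h2 f, h2 g]
    have h2 : Subsingleton (Abelian.Ext.{u} (ModuleCat.of R (IsLocalRing.ResidueField R)) M 0) :=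
      (Abelian.Ext.addEquiv₀).toEquiv.subsingleton
    exact not_subsingleton_iff_nontrivial.2 hi h2
  · simp

lemma exists_hom {M : ModuleCat.{u} R} (z : M) (hz : z ≠ 0)
    (h : ∀ r ∈ IsLocalRing.maximalIdeal R, r • z = 0) :
    ∃ f : ModuleCat.of R (IsLocalRing.ResidueField R) ⟶ M, f ≠ 0 := by
  let g : (R ⧸ IsLocalRing.maximalIdeal R) →ₗ[R] M :=
    Submodule.liftQ _ (LinearMap.toSpanSingleton R M z) (by
      intro r hr
      rw [LinearMap.mem_ker, LinearMap.toSpanSingleton_apply]
      exact h r hr)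
  refine ⟨ModuleCat.ofHom (X := IsLocalRing.ResidueField R) g, ?_⟩
  intro hf
  apply hz
  have h1 : g (Submodule.Quotient.mk 1) = 0 := by
    have h2 := congrArg (fun f => f.hom (Submodule.Quotient.mk (1 : R) :
      R ⧸ IsLocalRing.maximalIdeal R)) hf
    exact h2
  have h2 : g (Submodule.Quotient.mk 1) = (1 : R) • z := rfl
  rw [h2, one_smul] at h1
  exact h1

lemma depth_eq_zero {M : ModuleCat.{u} R} (z : M) (hz : z ≠ 0)
    (h : ∀ r ∈ IsLocalRing.maximalIdeal R, r • z = 0) : depth R M ≤ 0 := by
  obtain ⟨f, hf⟩ := exists_hom z hz h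
  have h1 : Nontrivial (Abelian.Ext.{u} (ModuleCat.of R (IsLocalRing.ResidueField R)) M 0) := by
    refine ⟨Abelian.Ext.mk₀ f, 0, fun h0 => hf ?_⟩
    apply Abelian.Ext.addEquiv₀.symm.injective
    rw [map_zero]
    exact h0
  rw [depth]
  exact iInf_le_of_le ⟨0, h1⟩ (by simp)

lemma depth_le_one {x : R} (hreg : ∀ r : R, x * r = 0 → r = 0)
    (z : R) (hz : z ∉ Ideal.span {x})
    (h : ∀ r ∈ IsLocalRing.maximalIdeal R, r * z ∈ Ideal.span {x}) :
    depth R (ModuleCat.of R R) ≤ 1 := by
  let f : R →ₗ[R] R := LinearMap.mulLeft R x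
  let g : R →ₗ[R] R ⧸ Ideal.span {x} := Submodule.mkQ _
  have hex : Function.Exact f g := by
    rw [LinearMap.exact_iff, Submodule.ker_mkQ]
    ext y
    rw [Ideal.mem_span_singleton, LinearMap.mem_range]
    constructor
    · rintro ⟨w, rfl⟩; exact ⟨w, rfl⟩
    · rintro ⟨w, rfl⟩; exact ⟨w, rfl⟩
  have hf : Function.Injective f := by
    rw [← LinearMap.ker_eq_bot, LinearMap.ker_eq_bot']
    exact hreg
  let S := ModuleCat.shortComplexOfCompEqZero f g hex.linearMap_comp_eq_zero
  have hS : S.ShortExact := ModuleCat.shortComplex_shortExact S hex hf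
    (Submodule.mkQ_surjective _)
  by_cases h0 : Nontrivial (Abelian.Ext.{u} (ModuleCat.of R (IsLocalRing.ResidueField R))
      (ModuleCat.of R R) 0)
  · rw [depth]
    exact iInf_le_of_le ⟨0, h0⟩ (by simp)
  · rw [not_nontrivial_iff_subsingleton] at h0
    have h1 : Nontrivial (Abelian.Ext.{u} (ModuleCat.of R (IsLocalRing.ResidueField R))
        (ModuleCat.of R R) 1) := by
      by_contra hcon
      rw [not_nontrivial_iff_subsingleton] at hcon
      obtain ⟨φ, hφ⟩ := exists_hom (M := ModuleCat.of R (R ⧸ Ideal.span {x}))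
        (Submodule.Quotient.mk z) (by
          rw [Ne, Submodule.Quotient.mk_eq_zero]
          exact hz) (by
          intro r hr
          have h3 := h r hr
          rw [← smul_eq_mul] at h3
          exact (Submodule.Quotient.mk_eq_zero _).2 h3)
      have h2 : (Abelian.Ext.mk₀ φ : Abelian.Ext.{u} (ModuleCat.of R (IsLocalRing.ResidueField R))
          S.X₃ 0).comp hS.extClass (zero_add 1) = 0 := Subsingleton.elim _ _
      obtain ⟨w, hw⟩ := Abelian.Ext.covariant_sequence_exact₃ _ hS _ (zero_add 1) h2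
      have h3 : w = 0 := Subsingleton.elim _ _
      rw [h3, Abelian.Ext.zero_comp] at hw
      apply hφ
      apply Abelian.Ext.addEquiv₀.symm.injective
      rw [map_zero]
      exact hw.symm
    rw [depth]
    exact iInf_le_of_le ⟨1, h1⟩ (by simp)

end Depth

section Main

variable (k : Type u) [Field k]

instance : IsNoetherianRing (Semi8.R k) :=
  isNoetherianRing_of_mem 8 (by norm_num) (Semi8.gen_mem (by simp))

lemma x_mem : (Semi8.x : Semi8.R k) ∈ IsLocalRing.maximalIdeal (Semi8.R k) :=
  Semi8.mem_m.2 Semi8.co0_x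

variable [CharZero k]

/-- Failure of (ldep) for the explicit semigroup. -/
theorem not_ldep : ¬ LDep (Semi8.R k) := by
  intro hl
  let M : ModuleCat.{u} (Semi8.R k) := ModuleCat.of _ (Semi8.J k)
  let N : ModuleCat.{u} (Semi8.R k) := ModuleCat.of _ (TwistedRes.Xmod Semi8.x (Semi8.D k))
  have hM : Module.Finite (Semi8.R k) M := inferInstanceAs (Module.Finite _ (Semi8.J k))
  have hN : Module.Finite (Semi8.R k) N :=
    inferInstanceAs (Module.Finite _ (TwistedRes.Xmod Semi8.x (Semi8.D k)))
  have hT : TorIndependent M N := by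
    intro i hi
    obtain ⟨n, rfl⟩ := Nat.exists_eq_succ_of_ne_zero hi.ne'
    exact TwistedRes.tor_vanish Semi8.data n
  have h1 : 1 ≤ depth (Semi8.R k) M := by
    refine one_le_depth Semi8.x (x_mem k) fun z hz => ?_
    have h2 : Semi8.x * (z : Semi8.R k) = 0 := congrArg Subtype.val hz
    exact Subtype.ext ((mul_eq_zero.1 h2).resolve_left Semi8.x_ne)
  have h2 : 1 ≤ depth (Semi8.R k) N := by
    refine one_le_depth Semi8.x (x_mem k) fun z hz => ?_
    have h2 : Semi8.x • (z : Fin 2 → Semi8.R k) = 0 := congrArg Subtype.val hz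
    exact Subtype.ext ((smul_eq_zero.1 h2).resolve_left Semi8.x_ne)
  have h3 : depth (Semi8.R k) (ModuleCat.of (Semi8.R k) (M ⊗[Semi8.R k] N)) ≤ 0 := by
    obtain ⟨z, hz, hz'⟩ := TwistedRes.exists_socle (Semi8.data (k := k))
    exact depth_eq_zero (M := ModuleCat.of (Semi8.R k) (M ⊗[Semi8.R k] N)) z hz hz'
  have h4 : depth (Semi8.R k) (ModuleCat.of (Semi8.R k) (Semi8.R k)) ≤ 1 := by
    refine depth_le_one (fun r hr => (mul_eq_zero.1 hr).resolve_left Semi8.x_ne)
      (Semi8.T 20 (by decide)) ?_ ?_
    · intro h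
      obtain ⟨w, hw⟩ := Ideal.mem_span_singleton.1 h
      have h5 := congrArg (Semi8.co 20) hw
      rw [Semi8.x, Semi8.co_T_mul, Semi8.co_T, if_pos rfl, if_pos (by norm_num)] at h5
      norm_num [Semi8.gap12] at h5
    · intro r hr
      rw [Semi8.mem_m] at hr
      rw [mul_comm, Ideal.mem_span_singleton]
      obtain ⟨g, hg⟩ := Semi8.exists_mul (Semi8.T 20 (by decide) * r)
        (by rw [Semi8.co_T_mul, if_neg (by norm_num)])
        (by rw [Semi8.co_T_mul, if_neg (by norm_num)])
        (by rw [Semi8.co_T_mul, if_neg (by norm_num)])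
        (by rw [Semi8.co_T_mul, if_neg (by norm_num)])
        (by rw [Semi8.co_T_mul, if_neg (by norm_num)])
        (by rw [Semi8.co_T_mul, if_pos (by norm_num)]; exact hr)
        (by rw [Semi8.co_T_mul, if_pos (by norm_num)]; exact Semi8.gap2 r)
        (by rw [Semi8.co_T_mul, if_pos (by norm_num)]; exact Semi8.gap3 r)
      exact ⟨g, hg⟩
  have h5 := hl M N hM hN hT
  have h6 : (1 : ℕ∞) + 1 ≤ 0 + 1 :=
    (add_le_add h1 h2).trans (h5.trans (add_le_add h3 h4))
  exact absurd h6 (by decide)

end Main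

/-- For every field `k` of characteristic zero, the semigroup `S` generated by
`8, 9, 10, 11, 13` is a numerical semigroup, its semigroup ring `k[[t^s : s ∈ S]]` is a
Noetherian local ring, and this ring fails (ldep). -/
theorem result (k : Type u) [Field k] [CharZero k] :
    (((AddSubmonoid.closure {8, 9, 10, 11, 13} : AddSubmonoid ℕ) : Set ℕ)ᶜ).Finite ∧
      IsNoetherianRing (semigroupRing k (AddSubmonoid.closure {8, 9, 10, 11, 13})) ∧
      ¬ LDep (semigroupRing k (AddSubmonoid.closure {8, 9, 10, 11, 13})) :=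
  ⟨Semi8.compl_finite, inferInstanceAs (IsNoetherianRing (Semi8.R k)), not_ldep k⟩

end Pool.Agent.Results.MP_5bb2cc_al.FailsLdep
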